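import Pool.Agent.MP_170294_an.H84.Main

namespace Pool.Agent.Results.MP_170294_an.AbsNotExtremal

open Set Pool.Agent.MP_170294_an.H84

/-- For every even `n ≥ 2` some continuous convex `f : [-1,1] → [0,1]` has a strictly larger best
Hausdorff approximation by polynomials of degree at most `n` than `|x|`. -/
theorem result : ∀ n : ℕ, 2 ≤ n → Even n →
    ∃ f : ℝ → ℝ, ContinuousOn f (Icc (-1 : ℝ) 1) ∧ ConvexOn ℝ (Icc (-1 : ℝ) 1) f ∧
      MapsTo f (Icc (-1 : ℝ) 1) (Icc (0 : ℝ) 1) ∧
      bestApprox n (fun x => |x|) < bestApprox n f := by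
  rintro n hn ⟨k, rfl⟩
  rw [← two_mul]
  exact main k (by omega)

end Pool.Agent.Results.MP_170294_an.AbsNotExtremal
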